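import Pool.Agent.W586.CS.Stm

/-!
Project CS, part CPT: compactness.
-/

set_option autoImplicit false

namespace Pool.Agent.W605.CS.CPT

open Pool.Agent.W586.CS Finset

section signs
variable {d : ℕ}

lemma fl_fl (j : Fin d) (I : Finset (Fin d)) : fl j (fl j I) = I := by
  unfold fl
  by_cases h : j ∈ I
  · rw [if_pos h, if_neg (Finset.notMem_erase j I), Finset.insert_erase h]
  · rw [if_neg h, if_pos (Finset.mem_insert_self j I), Finset.erase_insert h]

lemma mem_fl (j i : Fin d) (I : Finset (Fin d)) : i ∈ fl j I ↔ (if i = j then i ∉ I else i ∈ I) := by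
  unfold fl
  by_cases h : j ∈ I
  · rw [if_pos h, Finset.mem_erase]
    by_cases hij : i = j
    · subst hij; simp [h]
    · simp [hij]
  · rw [if_neg h, Finset.mem_insert]
    by_cases hij : i = j
    · subst hij; simp [h]
    · simp [hij]

lemma fl_comm (j k : Fin d) (I : Finset (Fin d)) : fl j (fl k I) = fl k (fl j I) := by
  ext i
  rw [mem_fl, mem_fl, mem_fl, mem_fl]
  split_ifs <;> tauto

lemma sg_sq (j : Fin d) (I : Finset (Fin d)) : sg j I ^ 2 = 1 := by
  unfold sg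
  rw [← pow_mul, mul_comm, pow_mul]
  norm_num

lemma sg_fl (j k : Fin d) (I : Finset (Fin d)) :
    sg j (fl k I) = (if k < j then -1 else 1) * sg j I := by
  unfold sg fl
  by_cases hk : k ∈ I
  · rw [if_pos hk, Finset.filter_erase]
    by_cases hkj : k < j
    · rw [if_pos hkj]
      have hm : k ∈ I.filter (fun i => i < j) := Finset.mem_filter.2 ⟨hk, hkj⟩
      have h1 := Finset.card_erase_add_one hm
      rw [← h1, pow_succ]
      ring
    · rw [if_neg hkj, Finset.erase_eq_of_notMem, one_mul]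
      intro hm
      exact hkj (Finset.mem_filter.1 hm).2
  · rw [if_neg hk, Finset.filter_insert]
    by_cases hkj : k < j
    · rw [if_pos hkj, if_pos hkj, Finset.card_insert_of_notMem, pow_succ]
      · ring
      · intro hm
        exact hk (Finset.mem_filter.1 hm).1
    · rw [if_neg hkj, if_neg hkj, one_mul]

lemma sum_fl (j : Fin d) (F : Finset (Fin d) → ℝ) : ∑ I, F (fl j I) = ∑ I, F I :=
  Finset.sum_nbij' (fl j) (fl j) (fun _ _ => Finset.mem_univ _) (fun _ _ => Finset.mem_univ _)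
    (fun I _ => fl_fl j I) (fun I _ => fl_fl j I) (fun _ _ => rfl)

lemma off (j k : Fin d) (hjk : j ≠ k) (η : Finset (Fin d) → ℝ) :
    ∑ I, sg j I * sg k I * (η (fl j I) * η (fl k I)) = 0 := by
  have h1 : ∑ I, sg j I * sg k I * (η (fl j I) * η (fl k I)) =
      -∑ I, sg j I * sg k I * (η (fl j I) * η (fl k I)) := by
    conv_lhs => rw [← sum_fl k, ← sum_fl j]
    rw [← Finset.sum_neg_distrib]
    apply Finset.sum_congr rfl
    intro I _
    have e1 : fl j (fl k (fl j I)) = fl k I := by rw [fl_comm k j, fl_fl]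
    have e2 : fl k (fl k (fl j I)) = fl j I := fl_fl k _
    rw [e1, e2, sg_fl j k, sg_fl j j, sg_fl k k, sg_fl k j, if_neg (lt_irrefl j),
      if_neg (lt_irrefl k)]
    rcases lt_or_gt_of_ne hjk with h | h
    · rw [if_neg (not_lt.2 h.le), if_pos h]; ring
    · rw [if_pos h, if_neg (not_lt.2 h.le)]; ring
  linarith

lemma cliff (x : Fin d → ℝ) (η : Finset (Fin d) → ℝ) :
    ∑ I, (∑ j, x j * (sg j I * η (fl j I))) ^ 2 = (∑ j, x j ^ 2) * ∑ I, η I ^ 2 := by
  have h1 : ∀ I : Finset (Fin d), (∑ j, x j * (sg j I * η (fl j I))) ^ 2 =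
      ∑ j, ∑ k, x j * x k * (sg j I * sg k I * (η (fl j I) * η (fl k I))) := by
    intro I
    rw [sq, Finset.sum_mul_sum]
    apply Finset.sum_congr rfl
    intro j _
    apply Finset.sum_congr rfl
    intro k _
    ring
  simp_rw [h1]
  rw [Finset.sum_comm]
  have h2 : ∀ j : Fin d, ∑ I, ∑ k, x j * x k * (sg j I * sg k I * (η (fl j I) * η (fl k I))) =
      x j ^ 2 * ∑ I, η I ^ 2 := by
    intro j
    rw [Finset.sum_comm, Finset.sum_eq_single j]
    · rw [← sum_fl j (fun I => η I ^ 2), Finset.mul_sum]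
      apply Finset.sum_congr rfl
      intro I _
      have := sg_sq j I
      calc x j * x j * (sg j I * sg j I * (η (fl j I) * η (fl j I)))
          = x j ^ 2 * (sg j I ^ 2 * η (fl j I) ^ 2) := by ring
        _ = _ := by rw [this, one_mul]
    · intro k _ hk
      rw [← Finset.mul_sum, off j k (Ne.symm hk), mul_zero]
    · intro h
      exact absurd (Finset.mem_univ j) h
  simp_rw [h2]
  rw [← Finset.sum_mul]

end signs

section
variable {d : ℕ} {ι : Type} [Fintype ι]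

/-- the Clifford part -/
noncomputable def Cx (x : Fin d → ℝ) (ξ : Finset (Fin d) → ι → ℝ) : Finset (Fin d) → ι → ℝ :=
  fun I a => ∑ j : Fin d, x j * (sg j I * ξ (fl j I) a)

lemma nsq_nonneg (ξ : Finset (Fin d) → ι → ℝ) : 0 ≤ nsq ξ :=
  Finset.sum_nonneg fun _ _ => Finset.sum_nonneg fun _ _ => sq_nonneg _

lemma nsq_Cx (x : Fin d → ℝ) (ξ : Finset (Fin d) → ι → ℝ) :
    nsq (Cx x ξ) = (∑ j, x j ^ 2) * nsq ξ := by
  unfold nsq Cx
  rw [Finset.sum_comm]
  have h1 : ∀ a : ι, ∑ I, (∑ j : Fin d, x j * (sg j I * ξ (fl j I) a)) ^ 2 =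
      (∑ j, x j ^ 2) * ∑ I, ξ I a ^ 2 := fun a => cliff x (fun I => ξ I a)
  simp_rw [h1]
  rw [← Finset.mul_sum, Finset.sum_comm]

lemma Lx_eq (A : Fin d → Matrix ι ι ℝ) (x : Fin d → ℝ) (ξ : Finset (Fin d) → ι → ℝ)
    (I : Finset (Fin d)) (a : ι) : Lx A x ξ I a = Lx A 0 ξ I a - Cx x ξ I a := by
  unfold Lx Cx
  rw [← Finset.sum_sub_distrib]
  apply Finset.sum_congr rfl
  intro j _
  rw [Pi.zero_apply]
  ring

lemma nsq_sub (A : Fin d → Matrix ι ι ℝ) (x : Fin d → ℝ) (ξ : Finset (Fin d) → ι → ℝ) :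
    1 / 2 * nsq (Cx x ξ) - nsq (Lx A 0 ξ) ≤ nsq (Lx A x ξ) := by
  unfold nsq
  rw [Finset.mul_sum, ← Finset.sum_sub_distrib]
  apply Finset.sum_le_sum
  intro I _
  rw [Finset.mul_sum, ← Finset.sum_sub_distrib]
  apply Finset.sum_le_sum
  intro a _
  rw [Lx_eq A x]
  nlinarith [sq_nonneg (2 * Lx A 0 ξ I a - Cx x ξ I a)]

lemma nsq_smul (c : ℝ) (ξ : Finset (Fin d) → ι → ℝ) : nsq (c • ξ) = c ^ 2 * nsq ξ := by
  unfold nsq
  rw [Finset.mul_sum]
  apply Finset.sum_congr rfl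
  intro I _
  rw [Finset.mul_sum]
  apply Finset.sum_congr rfl
  intro a _
  simp only [Pi.smul_apply, smul_eq_mul]
  ring

lemma Lx_smul (A : Fin d → Matrix ι ι ℝ) (x : Fin d → ℝ) (c : ℝ)
    (ξ : Finset (Fin d) → ι → ℝ) : Lx A x (c • ξ) = c • Lx A x ξ := by
  funext I a
  unfold Lx
  simp only [Pi.smul_apply, smul_eq_mul]
  rw [Finset.mul_sum]
  apply Finset.sum_congr rfl
  intro j _
  have h1 : ∑ b, A j a b * (c * ξ (fl j I) b) = c * ∑ b, A j a b * ξ (fl j I) b := by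
    rw [Finset.mul_sum]
    exact Finset.sum_congr rfl fun b _ => by ring
  rw [h1]
  ring

lemma eq_zero_of_nsq {ξ : Finset (Fin d) → ι → ℝ} (h : nsq ξ = 0) : ξ = 0 := by
  funext I a
  unfold nsq at h
  rw [Finset.sum_eq_zero_iff_of_nonneg
    (fun _ _ => Finset.sum_nonneg fun _ _ => sq_nonneg _)] at h
  have h1 := h I (Finset.mem_univ I)
  rw [Finset.sum_eq_zero_iff_of_nonneg (fun _ _ => sq_nonneg _)] at h1
  have h2 := h1 a (Finset.mem_univ a)
  simpa using h2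

/-- scaling -/
lemma scale {F : (Finset (Fin d) → ι → ℝ) → ℝ} (hF : ∀ (c : ℝ) ξ, F (c • ξ) = c ^ 2 * F ξ)
    (hF0 : ∀ ξ, 0 ≤ F ξ) {δ : ℝ} (h : ∀ ξ, nsq ξ = 1 → δ ≤ F ξ) :
    ∀ ξ, δ * nsq ξ ≤ F ξ := by
  intro ξ
  rcases (nsq_nonneg ξ).eq_or_lt with h0 | h0
  · rw [← h0, mul_zero]; exact hF0 ξ
  · have hs : 0 < √(nsq ξ) := Real.sqrt_pos.2 h0
    have h1 : nsq ((√(nsq ξ))⁻¹ • ξ) = 1 := by
      rw [nsq_smul, inv_pow, Real.sq_sqrt h0.le, inv_mul_cancel₀ h0.ne']
    have h2 := h _ h1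
    rw [hF, inv_pow, Real.sq_sqrt h0.le, ← div_eq_inv_mul, le_div_iff₀ h0] at h2
    exact h2

lemma scale' {F : (Finset (Fin d) → ι → ℝ) → ℝ} (hF : ∀ (c : ℝ) ξ, F (c • ξ) = c ^ 2 * F ξ)
    {M : ℝ} (h : ∀ ξ, nsq ξ = 1 → F ξ ≤ M) (h0' : ∀ ξ, nsq ξ = 0 → F ξ = 0) :
    ∀ ξ, F ξ ≤ M * nsq ξ := by
  intro ξ
  rcases (nsq_nonneg ξ).eq_or_lt with h0 | h0
  · rw [← h0, mul_zero]; exact (h0' ξ h0.symm).le
  · have hs : 0 < √(nsq ξ) := Real.sqrt_pos.2 h0
    have h1 : nsq ((√(nsq ξ))⁻¹ • ξ) = 1 := by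
      rw [nsq_smul, inv_pow, Real.sq_sqrt h0.le, inv_mul_cancel₀ h0.ne']
    have h2 := h _ h1
    rw [hF, inv_pow, Real.sq_sqrt h0.le, ← div_eq_inv_mul, div_le_iff₀ h0] at h2
    exact h2

lemma nsq_cont : Continuous (nsq : (Finset (Fin d) → ι → ℝ) → ℝ) := by
  unfold nsq
  fun_prop

lemma Lx_cont (A : Fin d → Matrix ι ι ℝ) :
    Continuous fun p : (Fin d → ℝ) × (Finset (Fin d) → ι → ℝ) => Lx A p.1 p.2 := by
  unfold Lx
  fun_prop

lemma abs_le_of_nsq {ξ : Finset (Fin d) → ι → ℝ} (h : nsq ξ = 1) (I : Finset (Fin d)) (a : ι) :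
    |ξ I a| ≤ 1 := by
  have h1 : ξ I a ^ 2 ≤ nsq ξ := by
    unfold nsq
    refine le_trans ?_ (Finset.single_le_sum (f := fun I => ∑ a, ξ I a ^ 2)
      (fun _ _ => Finset.sum_nonneg fun _ _ => sq_nonneg _) (Finset.mem_univ I))
    exact Finset.single_le_sum (f := fun a => ξ I a ^ 2) (fun _ _ => sq_nonneg _)
      (Finset.mem_univ a)
  rw [h] at h1
  exact abs_le_one_iff_mul_self_le_one.2 (by nlinarith)

end

theorem main : S_CPT := by
  intro d ι _ A hA
  -- the bound for the constant part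
  obtain ⟨M, hM0, hM⟩ : ∃ M : ℝ, 0 ≤ M ∧ ∀ ξ : Finset (Fin d) → ι → ℝ,
      nsq (Lx A 0 ξ) ≤ M * nsq ξ := by
    have hc : Continuous fun ξ : Finset (Fin d) → ι → ℝ => nsq (Lx A 0 ξ) :=
      nsq_cont.comp ((Lx_cont A).comp (continuous_const.prodMk continuous_id))
    have hcpt : IsCompact {ξ : Finset (Fin d) → ι → ℝ | nsq ξ = 1} := by
      apply Metric.isCompact_of_isClosed_isBounded (isClosed_eq nsq_cont continuous_const)
      rw [isBounded_iff_forall_norm_le]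
      refine ⟨1, fun ξ hξ => ?_⟩
      rw [pi_norm_le_iff_of_nonneg zero_le_one]
      intro I
      rw [pi_norm_le_iff_of_nonneg zero_le_one]
      intro a
      exact abs_le_of_nsq hξ I a
    obtain ⟨M, hM⟩ := hcpt.exists_bound_of_continuousOn hc.continuousOn
    refine ⟨max M 0, le_max_right _ _, ?_⟩
    apply scale' (F := fun ξ => nsq (Lx A 0 ξ))
    · intro c ξ
      rw [Lx_smul, nsq_smul]
    · intro ξ hξ
      exact (le_abs_self _).trans ((hM ξ hξ).trans (le_max_left _ _))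
    · intro ξ hξ
      rw [eq_zero_of_nsq hξ]
      have : Lx A 0 (0 : Finset (Fin d) → ι → ℝ) = 0 := by
        have := Lx_smul A 0 0 (0 : Finset (Fin d) → ι → ℝ)
        simpa using this
      rw [this]
      simp [nsq]
  -- the compact set
  have hcpt : IsCompact {p : (Fin d → ℝ) × (Finset (Fin d) → ι → ℝ) |
      ∑ j, p.1 j ^ 2 ≤ 2 * (M + 1) ∧ nsq p.2 = 1} := by
    apply Metric.isCompact_of_isClosed_isBounded
    · apply IsClosed.inter
      · have hc1 : Continuous fun p : (Fin d → ℝ) × (Finset (Fin d) → ι → ℝ) =>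
            ∑ j, p.1 j ^ 2 := by fun_prop
        exact isClosed_le hc1 continuous_const
      · exact isClosed_eq (nsq_cont.comp continuous_snd) continuous_const
    · rw [isBounded_iff_forall_norm_le]
      refine ⟨max (2 * (M + 1) + 1) 1, fun p hp => ?_⟩
      obtain ⟨hp1, hp2⟩ := hp
      rw [Prod.norm_def]
      apply max_le_max
      · rw [pi_norm_le_iff_of_nonneg (by positivity)]
        intro j
        have h1 : p.1 j ^ 2 ≤ ∑ j, p.1 j ^ 2 :=
          Finset.single_le_sum (f := fun j => p.1 j ^ 2) (fun _ _ => sq_nonneg _)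
            (Finset.mem_univ j)
        rw [Real.norm_eq_abs]
        have h2 : |p.1 j| ^ 2 ≤ 2 * (M + 1) := by rw [sq_abs]; linarith
        nlinarith [abs_nonneg (p.1 j), sq_nonneg (|p.1 j| - 1)]
      · rw [pi_norm_le_iff_of_nonneg zero_le_one]
        intro I
        rw [pi_norm_le_iff_of_nonneg zero_le_one]
        intro a
        exact abs_le_of_nsq hp2 I a
  have hcont : Continuous fun p : (Fin d → ℝ) × (Finset (Fin d) → ι → ℝ) =>
      nsq (Lx A p.1 p.2) := nsq_cont.comp (Lx_cont A)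
  obtain ⟨δ, hδ, hδ'⟩ := hcpt.exists_forall_le' hcont.continuousOn (a := 0) (by
    intro p hp
    rcases (nsq_nonneg (Lx A p.1 p.2)).eq_or_lt with h | h
    · exfalso
      have h1 := hA _ _ (eq_zero_of_nsq h.symm)
      have h2 := hp.2
      rw [h1] at h2
      simp [nsq] at h2
    · exact h)
  refine ⟨min δ 1, lt_min hδ one_pos, fun x => ?_⟩
  rcases le_or_gt (∑ j, x j ^ 2) (2 * (M + 1)) with hx | hx
  · apply scale (F := fun ξ => nsq (Lx A x ξ))
    · intro c ξ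
      rw [Lx_smul, nsq_smul]
    · intro ξ; exact nsq_nonneg _
    · intro ξ hξ
      exact (min_le_left _ _).trans (hδ' (x, ξ) ⟨hx, hξ⟩)
  · intro ξ
    have h1 := nsq_sub A x ξ
    rw [nsq_Cx] at h1
    have h2 := hM ξ
    have h3 := nsq_nonneg ξ
    have h4 : min δ 1 * nsq ξ ≤ 1 * nsq ξ := mul_le_mul_of_nonneg_right (min_le_right _ _) h3
    nlinarith

end Pool.Agent.W605.CS.CPT
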